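import Mathlib
import Pool.Agent.X300.RB.NR

/-!
# Finiteness of `H^3_nr(A × Z, ℚ_ℓ/ℤ_ℓ(2))` for almost all abelian varieties `A`

Let `A` be a product of powers of abelian varieties of dimensions `g i` over the field with `q`
elements (over an extension with `Q = q ^ s` elements and up to isogeny), given by their Weil
polynomials `f i`, and let `Z` be a smooth projective variety over the field with `Q` elements.

The theorem says that for almost all families `f` of Weil polynomials (all but a proportion
`O (q ^ (-1 / 6) log q)`, for all isogeny classes as well as for the ordinary ones) the group
`H^3_nr(A × Z, ℚ_ℓ/ℤ_ℓ(2))` is finite, for all `Z` whose Frobenius eigenvalues lie, up to powers, in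
a group generated by the nonzero elements of the number field `E` and `r < g i` further numbers, if
the Tate-Beilinson statement holds for `Z` in the weights `j ≤ 2`: the regulators from
`H^i(Z, ℚ(j)) ⊗ ℚ_ℓ` to `H^i(Z, ℚ_ℓ(j))` are isomorphisms onto the Frobenius invariants, and the
eigenvalue one is semisimple. The weights `j ≤ 0` are no condition, and the weight one is the Tate
conjecture for divisors. The condition in weight two is known for curves, for products of two curves,
and for the other surfaces and threefolds of abelian type which satisfy the Tate conjecture for
divisors (Soulé, Kahn). The dimension of `A` is arbitrary.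

We use the known theorem (`IsUnramifiedPart`; Geisser, Kahn, Colliot-Thélène and Kahn) that for a
smooth projective variety `X` the group `H^3_nr(X, ℚ_ℓ/ℤ_ℓ(2))` is finite if the Tate-Beilinson
statement holds for `X` in the weight two. What we prove is the Kunneth formula for motivic and
`ℓ`-adic cohomology and the reduction from `A × Z` to `Z`. Motivic cohomology is tensored with `ℚ_ℓ`.
The condition on the operation of the Frobenius endomorphism of `Z` on the motivic cohomology of
`A × Z` (`HasRankOn`) is known if the motive of `Z` is built from motives of curves and abelian
varieties.
-/

set_option autoImplicit false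

namespace Pool.Agent.Results.MP_859dd5_ag.AlmostAllFactors

open Pool.Agent.Y156.L Pool.Agent.X300.RB

/-- Let `r < g i` for all `i` and let `E` be a number field. Almost all families of abelian
varieties of dimensions `g i` over the field with `q` elements, given by their Weil polynomials
`f i`, have the property `UnramifiedForRankOver E q r f`: for products `A` of powers of these abelian
varieties and all smooth projective `Z` of rank at most `r` over `E` which satisfy the
Tate-Beilinson statement in the weights `j ≤ 2`, the group `H^3_nr(A × Z, ℚ_ℓ/ℤ_ℓ(2))` is finite. -/
theorem result {I : Type} [Fintype I] (g : I → ℕ) (r : ℕ) (hr : ∀ i, r < g i)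
    (E : IntermediateField ℚ ℂ) [FiniteDimensional ℚ E] :
    AlmostAll g fun q f => UnramifiedForRankOver E q r f :=
  count_nr g r hr E

end Pool.Agent.Results.MP_859dd5_ag.AlmostAllFactors
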